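import Mathlib

/-!
# Even feedback vertex sets bound the number of regular models

For every finite ground normal logic program `P` and every set `U` of atoms meeting all the even
cycles of the atom dependency graph, `P` has at most `2 ^ |U|` regular models.

The truth values `0`, `1/2`, `1` are the elements `0`, `1`, `2` of `Fin 3`.

Proof. Two stable partial models which take opposite values at some atom take opposite values all
along an even cycle: an opposite atom has an opposite predecessor, and the orientation changes
exactly along negative arcs. Hence two stable partial models which are compatible on `U` are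
compatible everywhere, and then they have a common extension to a stable partial model, by
monotonicity of the reduct operator for the information order.
-/

set_option autoImplicit false

namespace Pool.Agent.Results.MP_9cfc50_lc.RegularModelsBound

/-- A ground rule `head ← pos, ¬ neg`. -/
structure Rule (α : Type*) where
  /-- the head -/
  head : α
  /-- the positive body atoms -/
  pos : Finset α
  /-- the negated body atoms -/
  neg : Finset α

variable {α : Type*}

/-- The value at `J` of the body of the rule `r` in the reduct with respect to `I`: the minimum of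
`J b` for the positive body atoms `b` and of `1 - I c` for the negated body atoms `c`. The truth
values are `0`, `1`, `2` for `0`, `1/2`, `1`, and `Fin.rev` is the negation. -/
def Rule.body (r : Rule α) (I J : α → Fin 3) : Fin 3 :=
  r.pos.inf J ⊓ r.neg.inf (fun c => Fin.rev (I c))

/-- `J` is a three-valued model of the reduct `P ^ I`. -/
def IsReductModel (P : Finset (Rule α)) (I J : α → Fin 3) : Prop :=
  ∀ r ∈ P, r.body I J ≤ J r.head

/-- `I` is a stable partial model: it is the least three-valued model of the reduct `P ^ I`, in the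
truth order. -/
def IsStablePartial (P : Finset (Rule α)) (I : α → Fin 3) : Prop :=
  IsLeast {J | IsReductModel P I J} I

/-- The information order. -/
def LeK (I J : α → Fin 3) : Prop := ∀ a, I a ≠ 1 → J a = I a

/-- Regular models: maximal stable partial models, in the information order. -/
def IsRegular (P : Finset (Rule α)) (I : α → Fin 3) : Prop :=
  IsStablePartial P I ∧ ∀ J, IsStablePartial P J → LeK I J → J = I

/-- The arcs of the atom dependency graph. The sign `true` stands for negative arcs. -/
def Arc (P : Finset (Rule α)) (s : Bool) (u v : α) : Prop :=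
  ∃ r ∈ P, r.head = v ∧ u ∈ (if s = true then r.neg else r.pos)

/-- `U` meets every even cycle of the atom dependency graph. A cycle is a sequence of distinct
atoms `v 0, …, v n` with arcs `v i → v (i + 1)` of sign `s i`, cyclically; it is even if the number
of its negative arcs is. -/
def MeetsEvenCycles (P : Finset (Rule α)) (U : Finset α) : Prop :=
  ∀ (n : ℕ) (v : Fin (n + 1) → α) (s : Fin (n + 1) → Bool), Function.Injective v →
    (∀ i, Arc P (s i) (v i) (v (i + 1))) → Even (Finset.univ.filter fun i => s i = true).card →
    ∃ i, v i ∈ U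

/-! ### Basic facts -/

theorem rev_eq_two {x : Fin 3} : Fin.rev x = 2 ↔ x = 0 := by
  revert x; decide

theorem rev_eq_zero {x : Fin 3} : Fin.rev x = 0 ↔ x = 2 := by
  revert x; decide

theorem not_two_le : ¬ ((2 : Fin 3) ≤ 2 ⊓ 1) := by decide

theorem not_two_le' : ¬ ((2 : Fin 3) ≤ 1) := by decide

theorem one_le_two' : (1 : Fin 3) ≤ 2 := by decide

theorem top_eq : (⊤ : Fin 3) = 2 := rfl

theorem bot_eq : (⊥ : Fin 3) = 0 := rfl

theorem body_mono (r : Rule α) (I : α → Fin 3) {J K : α → Fin 3} (h : J ≤ K) :
    r.body I J ≤ r.body I K :=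
  inf_le_inf (Finset.inf_mono_fun fun b _ => h b) le_rfl

theorem body_eq_two (r : Rule α) (I J : α → Fin 3) :
    r.body I J = 2 ↔ (∀ b ∈ r.pos, J b = 2) ∧ ∀ c ∈ r.neg, I c = 0 := by
  rw [Rule.body, ← top_eq, inf_eq_top_iff, Finset.inf_eq_top_iff, Finset.inf_eq_top_iff]
  simp only [top_eq, rev_eq_two]

theorem inf_eq_zero_iff (s : Finset α) (J : α → Fin 3) : s.inf J = 0 ↔ ∃ b ∈ s, J b = 0 := by
  constructor
  · intro h
    by_contra hne
    push Not at hne
    have : (1 : Fin 3) ≤ s.inf J := by
      refine Finset.le_inf fun b hb => ?_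
      have := hne b hb
      revert this
      generalize J b = x
      revert x
      decide
    rw [h] at this
    exact absurd this (by decide)
  · rintro ⟨b, hb, h⟩
    have := Finset.inf_le (f := J) hb
    rw [h] at this
    exact le_antisymm this (Fin.zero_le _)

theorem body_eq_zero (r : Rule α) (I J : α → Fin 3) :
    r.body I J = 0 ↔ (∃ b ∈ r.pos, J b = 0) ∨ ∃ c ∈ r.neg, I c = 2 := by
  have h1 : r.body I J = 0 ↔ r.pos.inf J = 0 ∨ r.neg.inf (fun c => Fin.rev (I c)) = 0 := by
    unfold Rule.body
    generalize r.pos.inf J = x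
    generalize r.neg.inf (fun c => Fin.rev (I c)) = y
    revert x y
    decide
  rw [h1, inf_eq_zero_iff, inf_eq_zero_iff]
  simp only [rev_eq_zero]

/-- The reduct operator. -/
noncomputable def Gam (P : Finset (Rule α)) (I : α → Fin 3) : α → Fin 3 :=
  sInf {J | IsReductModel P I J}

theorem gam_isLeast (P : Finset (Rule α)) (I : α → Fin 3) :
    IsLeast {J | IsReductModel P I J} (Gam P I) := by
  refine ⟨?_, fun J hJ => sInf_le hJ⟩
  intro r hr
  have : ∀ J ∈ {J | IsReductModel P I J}, r.body I (Gam P I) ≤ J r.head := fun J hJ =>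
    (body_mono r I (sInf_le hJ)).trans (hJ r hr)
  rw [Gam, sInf_apply]
  exact le_iInf fun J => this J.1 J.2

theorem isStablePartial_iff (P : Finset (Rule α)) (I : α → Fin 3) :
    IsStablePartial P I ↔ Gam P I = I :=
  ⟨fun h => (gam_isLeast P I).unique h, fun h => by
    have := gam_isLeast P I
    rw [h] at this
    exact this⟩

theorem leK_iff (I J : α → Fin 3) :
    LeK I J ↔ (∀ a, I a = 2 → J a = 2) ∧ ∀ a, I a = 0 → J a = 0 := by
  constructor
  · intro h
    refine ⟨fun a ha => ?_, fun a ha => ?_⟩
    · rw [← ha]; exact h a (by rw [ha]; decide)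
    · rw [← ha]; exact h a (by rw [ha]; decide)
  · rintro ⟨h1, h2⟩ a ha
    have key : ∀ x : Fin 3, x ≠ 1 → x = 0 ∨ x = 2 := by decide
    rcases key _ ha with h | h
    · rw [h, h2 a h]
    · rw [h, h1 a h]

theorem leK_refl (I : α → Fin 3) : LeK I I := fun _ _ => rfl

theorem leK_trans {I J K : α → Fin 3} (h1 : LeK I J) (h2 : LeK J K) : LeK I K := by
  intro a ha
  rw [h2 a (by rw [h1 a ha]; exact ha), h1 a ha]

theorem leK_antisymm {I J : α → Fin 3} (h1 : LeK I J) (h2 : LeK J I) : I = J := by
  funext a
  by_cases h : I a = 1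
  · by_contra hne
    have : J a ≠ 1 := fun h' => hne (by rw [h, h'])
    exact hne (h2 a this)
  · exact (h1 a h).symm

/-- The reduct operator is monotone for the information order. -/
theorem gam_mono (P : Finset (Rule α)) {I J : α → Fin 3} (h : LeK I J) :
    LeK (Gam P I) (Gam P J) := by
  obtain ⟨hT, hF⟩ := (leK_iff I J).1 h
  obtain ⟨hG, hGl⟩ := gam_isLeast P I
  obtain ⟨hH, hHl⟩ := gam_isLeast P J
  set G := Gam P I
  set H := Gam P J
  rw [leK_iff]
  classical
  constructor
  · have hm : IsReductModel P I (fun a => if H a = 2 then G a else G a ⊓ 1) := by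
      intro r hr
      have hle : (fun a => if H a = 2 then G a else G a ⊓ 1) ≤ G := by
        intro a
        dsimp only
        split_ifs
        · exact le_rfl
        · exact inf_le_left
      have h1 := (body_mono r I hle).trans (hG r hr)
      dsimp only
      split_ifs with hh
      · exact h1
      · refine le_inf h1 ?_
        have key : ∀ x : Fin 3, x ≠ 2 → x ≤ 1 := by decide
        refine key _ fun h2 => hh ?_
        obtain ⟨ha, hb⟩ := (body_eq_two _ _ _).1 h2
        have h3 : r.body J H = 2 := by
          refine (body_eq_two _ _ _).2 ⟨fun b hbp => ?_, fun c hc => hF c (hb c hc)⟩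
          have := ha b hbp
          split_ifs at this with h4
          · exact h4
          · exfalso
            revert this
            generalize G b = x
            revert x
            decide
        have h4 := hH r hr
        rw [h3] at h4
        have key2 : ∀ x : Fin 3, 2 ≤ x → x = 2 := by decide
        exact key2 _ h4
    intro a ha
    have h5 := hGl hm a
    rw [ha] at h5
    dsimp only at h5
    split_ifs at h5 with h6
    · exact h6
    · exact absurd h5 not_two_le
  · have hm : IsReductModel P J (fun a => if G a = 0 then 0 else H a) := by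
      intro r hr
      have hle : (fun a => if G a = 0 then 0 else H a) ≤ H := by
        intro a
        dsimp only
        split_ifs
        · exact Fin.zero_le _
        · exact le_rfl
      have h1 := (body_mono r J hle).trans (hH r hr)
      dsimp only
      split_ifs with hh
      · have h2 : r.body I G = 0 := by
          have := hG r hr
          rw [hh] at this
          exact le_antisymm this (Fin.zero_le _)
        refine le_of_eq ((body_eq_zero _ _ _).2 ?_)
        rcases (body_eq_zero _ _ _).1 h2 with ⟨b, hb, h3⟩ | ⟨c, hc, h3⟩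
        · exact Or.inl ⟨b, hb, if_pos h3⟩
        · exact Or.inr ⟨c, hc, hT c h3⟩
      · exact h1
    intro a ha
    have h5 := hHl hm a
    dsimp only at h5
    rw [if_pos ha] at h5
    exact le_antisymm h5 (Fin.zero_le _)

/-- Above a point `K` with `K ≤ Γ K` there is a stable partial model. -/
theorem exists_stable_above [Finite α] (P : Finset (Rule α)) (K : α → Fin 3)
    (hK : LeK K (Gam P K)) : ∃ L, IsStablePartial P L ∧ LeK K L := by
  let R : (α → Fin 3) → (α → Fin 3) → Prop := fun J I => LeK I J ∧ I ≠ J
  have : IsTrans _ R := ⟨fun a b c h1 h2 => ⟨leK_trans h2.1 h1.1, fun h => by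
    subst h
    exact h1.2 (leK_antisymm h1.1 h2.1)⟩⟩
  have : Std.Irrefl R := ⟨fun a h => h.2 rfl⟩
  have wf : WellFounded R := Finite.wellFounded_of_trans_of_irrefl R
  obtain ⟨L, ⟨hL1, hL2⟩, hLm⟩ := wf.has_min {L | LeK K L ∧ LeK L (Gam P L)} ⟨K, leK_refl K, hK⟩
  refine ⟨L, (isStablePartial_iff P L).2 ?_, hL1⟩
  by_contra hne
  exact hLm (Gam P L) ⟨leK_trans hL1 hL2, gam_mono P hL2⟩ ⟨hL2, fun h => hne h.symm⟩

/-- Supportedness. -/
theorem exists_rule (P : Finset (Rule α)) {I : α → Fin 3} (hI : IsStablePartial P I) {a : α}
    (ha : I a = 2) : ∃ r ∈ P, r.head = a ∧ r.body I I = 2 := by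
  classical
  by_contra hne
  push Not at hne
  have hm : IsReductModel P I (Function.update I a 1) := by
    have hle : Function.update I a 1 ≤ I := by
      intro b
      by_cases h : b = a
      · subst h
        rw [Function.update_self, ha]
        exact one_le_two'
      · rw [Function.update_of_ne h]
    intro r hr
    have h1 := body_mono r I hle
    by_cases h : r.head = a
    · rw [h, Function.update_self]
      have key : ∀ x : Fin 3, x ≠ 2 → x ≤ 1 := by decide
      exact h1.trans (key _ (hne r hr h))
    · rw [Function.update_of_ne h]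
      exact h1.trans (hI.1 r hr)
  have := hI.2 hm a
  rw [Function.update_self, ha] at this
  exact absurd this not_two_le'

theorem opp_step (P : Finset (Rule α)) {I J : α → Fin 3} (hI : IsStablePartial P I)
    (hJ : IsStablePartial P J) {a : α} (ha : I a = 2) (ha' : J a = 0) :
    (∃ b, Arc P false b a ∧ I b = 2 ∧ J b = 0) ∨ ∃ c, Arc P true c a ∧ I c = 0 ∧ J c = 2 := by
  obtain ⟨r, hr, hh, hb⟩ := exists_rule P hI ha
  obtain ⟨h1, h2⟩ := (body_eq_two _ _ _).1 hb
  have h3 : r.body J J = 0 := by
    have := hJ.1 r hr
    rw [hh, ha'] at this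
    exact le_antisymm this (Fin.zero_le _)
  rcases (body_eq_zero _ _ _).1 h3 with ⟨b, hb, h4⟩ | ⟨c, hc, h4⟩
  · exact Or.inl ⟨b, ⟨r, hr, hh, by simpa using hb⟩, h1 b hb, h4⟩
  · exact Or.inr ⟨c, ⟨r, hr, hh, by simpa using hc⟩, h2 c hc, h4⟩

/-- The two interpretations take opposite values at `a`. -/
def Opp (I J : α → Fin 3) (a : α) : Prop := (I a = 2 ∧ J a = 0) ∨ (I a = 0 ∧ J a = 2)

theorem opp_step' (P : Finset (Rule α)) {I J : α → Fin 3} (hI : IsStablePartial P I)
    (hJ : IsStablePartial P J) (a : α) (ha : Opp I J a) :
    ∃ (b : α) (s : Bool), Opp I J b ∧ Arc P s b a ∧ (s = true ↔ I b ≠ I a) := by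
  rcases ha with ⟨h1, h2⟩ | ⟨h1, h2⟩
  · rcases opp_step P hI hJ h1 h2 with ⟨b, hb, h3, h4⟩ | ⟨c, hc, h3, h4⟩
    · exact ⟨b, false, Or.inl ⟨h3, h4⟩, hb, by simp [h1, h3]⟩
    · exact ⟨c, true, Or.inr ⟨h3, h4⟩, hc, by simp [h1, h3]⟩
  · rcases opp_step P hJ hI h2 h1 with ⟨b, hb, h3, h4⟩ | ⟨c, hc, h3, h4⟩
    · exact ⟨b, false, Or.inr ⟨h4, h3⟩, hb, by simp [h1, h4]⟩
    · exact ⟨c, true, Or.inl ⟨h4, h3⟩, hc, by simp [h1, h4]⟩

/-- A periodic point of a self-map of a nonempty finite type. -/
theorem exists_period {β : Type*} [Finite β] (f : β → β) (x0 : β) :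
    ∃ (n : ℕ) (x : β), f^[n + 1] x = x ∧ Function.minimalPeriod f x = n + 1 := by
  obtain ⟨m, n, hmn, h⟩ := Finite.exists_ne_map_eq_of_infinite (fun n : ℕ => f^[n] x0)
  wlog hlt : m < n generalizing m n
  · exact this n m hmn.symm h.symm (lt_of_le_of_ne (not_lt.1 hlt) hmn.symm)
  have hp : Function.IsPeriodicPt f (n - m) (f^[m] x0) := by
    change f^[n - m] (f^[m] x0) = f^[m] x0
    rw [← Function.iterate_add_apply, Nat.sub_add_cancel hlt.le]
    exact h.symm
  have hpos : 0 < Function.minimalPeriod f (f^[m] x0) :=
    Function.minimalPeriod_pos_of_mem_periodicPts ⟨n - m, Nat.sub_pos_of_lt hlt, hp⟩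
  refine ⟨Function.minimalPeriod f (f^[m] x0) - 1, f^[m] x0, ?_, ?_⟩
  · rw [Nat.sub_add_cancel hpos]
    exact Function.iterate_minimalPeriod
  · rw [Nat.sub_add_cancel hpos]

/-- Stable partial models which are compatible on `U` are compatible. -/
theorem compatible [Finite α] (P : Finset (Rule α)) (U : Finset α) (hU : MeetsEvenCycles P U)
    {I J : α → Fin 3} (hI : IsStablePartial P I) (hJ : IsStablePartial P J)
    (h : ∀ a ∈ U, ¬ Opp I J a) (a : α) : ¬ Opp I J a := by
  intro ha
  choose! g s hg using opp_step' P hI hJ
  let f : {a // Opp I J a} → {a // Opp I J a} := fun a => ⟨g a.1, (hg a.1 a.2).1⟩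
  obtain ⟨n, x, hx1, hx2⟩ := exists_period f ⟨a, ha⟩
  let w : Fin (n + 1) → {a // Opp I J a} := fun i => f^[(Fin.rev i).val] x
  have hw : ∀ i, f (w (i + 1)) = w i := by
    intro i
    by_cases hi : i = Fin.last n
    · subst hi
      simp only [w]
      rw [Fin.last_add_one, Fin.rev_zero, Fin.rev_last]
      rw [Fin.val_last, ← Function.iterate_succ_apply' f, hx1]
      rfl
    · simp only [w]
      have h1 : (i + 1 : Fin (n + 1)).val = i.val + 1 := Fin.val_add_one_of_lt
        (lt_of_le_of_ne (Fin.le_last i) hi)
      have h2 : i.val < n := by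
        have := lt_of_le_of_ne (Fin.le_last i) hi
        exact this
      rw [← Function.iterate_succ_apply' f]
      congr 1
      rw [Fin.val_rev, Fin.val_rev, h1]
      omega
  have hinj : Function.Injective w := by
    intro i j hij
    have := (Function.iterate_injOn_Iio_minimalPeriod (f := f) (x := x))
      (show (Fin.rev i).val ∈ Set.Iio _ by rw [hx2]; exact (Fin.rev i).2)
      (show (Fin.rev j).val ∈ Set.Iio _ by rw [hx2]; exact (Fin.rev j).2) hij
    exact Fin.rev_injective (Fin.ext this)
  obtain ⟨i, hi⟩ := hU n (fun i => (w i).1) (fun i => s (w (i + 1)).1)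
    (Subtype.val_injective.comp hinj)
    (fun i => by
      have h1 := (hg (w (i + 1)).1 (w (i + 1)).2).2.1
      have h2 : g (w (i + 1)).1 = (w i).1 := congrArg Subtype.val (hw i)
      rw [h2] at h1
      exact h1)
    (by
      have key : ∀ i : Fin (n + 1), (if s (w (i + 1)).1 = true then (1 : ZMod 2) else 0) =
          (if I (w i).1 = 2 then 1 else 0) + if I (w (i + 1)).1 = 2 then 1 else 0 := by
        intro i
        have h1 := (hg (w (i + 1)).1 (w (i + 1)).2).2.2
        have h2 : g (w (i + 1)).1 = (w i).1 := congrArg Subtype.val (hw i)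
        rw [h2] at h1
        have e1 := (w i).2
        have e2 := (w (i + 1)).2
        rcases e1 with ⟨e1, -⟩ | ⟨e1, -⟩ <;> rcases e2 with ⟨e2, -⟩ | ⟨e2, -⟩ <;>
          rw [e1, e2] at h1
        · have : ¬ (s (w (i + 1)).1 = true) := by rw [h1]; simp
          rw [if_neg this, if_pos e1, if_pos e2]; decide
        · have : (s (w (i + 1)).1 = true) := by rw [h1]; decide
          rw [if_pos this, if_pos e1, if_neg (by rw [e2]; decide)]; decide
        · have : (s (w (i + 1)).1 = true) := by rw [h1]; decide
          rw [if_pos this, if_neg (by rw [e1]; decide), if_pos e2]; decide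
        · have : ¬ (s (w (i + 1)).1 = true) := by rw [h1]; simp
          rw [if_neg this, if_neg (by rw [e1]; decide), if_neg (by rw [e2]; decide)]; decide
      have hsum : ((Finset.univ.filter fun i : Fin (n + 1) => s (w (i + 1)).1 = true).card :
          ZMod 2) = 0 := by
        rw [Finset.card_filter, Nat.cast_sum]
        have : ∀ i : Fin (n + 1), ((if s (w (i + 1)).1 = true then 1 else 0 : ℕ) : ZMod 2) =
            (if I (w i).1 = 2 then 1 else 0) + if I (w (i + 1)).1 = 2 then 1 else 0 := by
          intro i
          rw [← key i]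
          split_ifs <;> simp
        rw [Finset.sum_congr rfl fun i _ => this i, Finset.sum_add_distrib]
        have h3 : ∑ i : Fin (n + 1), (if I (w (i + 1)).1 = 2 then (1 : ZMod 2) else 0) =
            ∑ i : Fin (n + 1), (if I (w i).1 = 2 then (1 : ZMod 2) else 0) :=
          Fintype.sum_equiv (Equiv.addRight (1 : Fin (n + 1))) _ _ fun i => rfl
        rw [h3]
        exact CharTwo.add_self_eq_zero _
      exact (ZMod.natCast_eq_zero_iff_even).1 hsum)
  exact h _ hi (w i).2

theorem regular_eq [Finite α] (P : Finset (Rule α)) (U : Finset α) (hU : MeetsEvenCycles P U)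
    {I J : α → Fin 3} (hI : IsRegular P I) (hJ : IsRegular P J)
    (h : ∀ a ∈ U, ¬ Opp I J a) : I = J := by
  have hc := compatible P U hU hI.1 hJ.1 h
  classical
  let K : α → Fin 3 := fun a => if I a = 1 then J a else I a
  have h1 : LeK I K := fun a ha => if_neg ha
  have h2 : LeK J K := by
    intro a ha
    by_cases hIa : I a = 1
    · exact if_pos hIa
    · have e : K a = I a := if_neg hIa
      rw [e]
      have hO := hc a
      unfold Opp at hO
      revert hO ha hIa
      generalize I a = x
      generalize J a = y
      revert x y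
      decide
  have hKG : LeK K (Gam P K) := by
    have g1 := gam_mono P h1
    have g2 := gam_mono P h2
    rw [(isStablePartial_iff P I).1 hI.1] at g1
    rw [(isStablePartial_iff P J).1 hJ.1] at g2
    intro a ha
    by_cases hIa : I a = 1
    · have e : K a = J a := if_pos hIa
      rw [e]
      rw [e] at ha
      exact g2 a ha
    · have e : K a = I a := if_neg hIa
      rw [e]
      exact g1 a hIa
  obtain ⟨L, hL, hKL⟩ := exists_stable_above P K hKG
  rw [← hI.2 L hL (leK_trans h1 hKL), hJ.2 L hL (leK_trans h2 hKL)]

/-- For every finite ground normal logic program `P`, tight or not, and every set `U` of atoms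
meeting every even cycle of the atom dependency graph of `P`, the number of regular models of `P`
is at most `2 ^ |U|`. -/
theorem result {α : Type*} [Finite α] (P : Finset (Rule α)) (U : Finset α)
    (hU : MeetsEvenCycles P U) : {I : α → Fin 3 | IsRegular P I}.encard ≤ 2 ^ U.card := by
  classical
  let F : (α → Fin 3) → Finset α := fun I => U.filter fun a => I a = 2
  have hinj : Set.InjOn F {I : α → Fin 3 | IsRegular P I} := by
    intro I hI J hJ hF
    refine regular_eq P U hU hI hJ fun a ha hO => ?_
    have hiff : I a = 2 ↔ J a = 2 := by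
      have : a ∈ F I ↔ a ∈ F J := by rw [hF]
      simpa [F, ha] using this
    rcases hO with ⟨h1, h2⟩ | ⟨h1, h2⟩
    · rw [h1, h2] at hiff
      exact absurd (hiff.1 rfl) (by decide)
    · rw [h1, h2] at hiff
      exact absurd (hiff.2 rfl) (by decide)
  have hmaps : Set.MapsTo F {I : α → Fin 3 | IsRegular P I} (U.powerset : Set (Finset α)) := by
    intro I _
    simp only [F, Finset.coe_powerset, Set.mem_preimage, Set.mem_powerset_iff, Finset.coe_subset]
    exact Finset.filter_subset _ _
  have h1 := Set.encard_le_encard_of_injOn hmaps hinj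
  rw [Set.encard_coe_eq_coe_finsetCard, Finset.card_powerset] at h1
  exact_mod_cast h1

end Pool.Agent.Results.MP_9cfc50_lc.RegularModelsBound
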